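import Pool.Agent.Helper57.SS.Goals

/-! Packet SS-APX (helper76). -/

set_option autoImplicit false

open MeasureTheory Filter Topology

namespace Pool.Agent.Helper76.SS

open Pool.Agent.Helper57.SS

theorem gAPX : Pool.Agent.Helper57.SS.G_APX := by
  intro hFZ hZP α A m0 μ _ T hE f hf ε hε
  obtain ⟨hanti, hle, hTle, -, -, hTF⟩ := hFZ hZP α A T hE
  let ℱ : Filtration ℕ m0 :=
    { seq := fun n => Fz A T (-(n : ℤ))
      mono' := fun m n hmn => hanti _ _ (by omega)
      le' := fun n => hle _ }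
  have hfi : Integrable f μ := by
    refine Integrable.of_bound hf.1.aestronglyMeasurable 1 (ae_of_all _ fun x => ?_)
    rw [Real.norm_eq_abs]; exact hf.2 x
  have hfm : StronglyMeasurable[⨆ n, ℱ n] f := by
    have h1 : Measurable[⨆ n, ℱ n] f := by
      intro s hs
      exact hE.top _ (hf.1 hs)
    exact h1.stronglyMeasurable
  have hlim := hfi.tendsto_eLpNorm_condExp hfm
  have hev := hlim.eventually_lt_const (ENNReal.ofReal_pos.mpr hε)
  obtain ⟨p, hp⟩ := eventually_atTop.mp hev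
  have hp := hp p le_rfl
  have hcm : StronglyMeasurable[ℱ p] (μ[f | ℱ p]) := stronglyMeasurable_condExp
  have hb : ∀ᵐ x ∂μ, |(μ[f | ℱ p]) x| ≤ 1 := by
    have h1 : μ[f | ℱ p] ≤ᵐ[μ] μ[(fun _ => (1 : ℝ)) | ℱ p] :=
      condExp_mono hfi (integrable_const _) (ae_of_all _ fun x => (abs_le.mp (hf.2 x)).2)
    have h2 : μ[(fun _ => (-1 : ℝ)) | ℱ p] ≤ᵐ[μ] μ[f | ℱ p] :=
      condExp_mono (integrable_const _) hfi (ae_of_all _ fun x => (abs_le.mp (hf.2 x)).1)
    rw [condExp_const (ℱ.le p)] at h1 h2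
    filter_upwards [h1, h2] with x h1 h2
    exact abs_le.mpr ⟨h2, h1⟩
  let f' : α → ℝ := fun x => max (-1) (min 1 ((μ[f | ℱ p]) x))
  have hf'm : Measurable[Fz A T (-(p : ℤ))] f' := by
    have h3 : Measurable[ℱ p] (μ[f | ℱ p]) := hcm.measurable
    exact Measurable.max measurable_const (Measurable.min measurable_const h3)
  have hff : f' =ᵐ[μ] μ[f | ℱ p] := by
    filter_upwards [hb] with x hx
    rw [abs_le] at hx
    show max (-1) (min 1 ((μ[f | ℱ p]) x)) = _
    rw [min_eq_right hx.2, max_eq_right hx.1]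
  refine ⟨p, f', hf'm, fun x => ?_, ?_, ?_⟩
  · rw [abs_le]
    exact ⟨le_max_left _ _, max_le (by norm_num) (min_le_left _ _)⟩
  · refine (condExp_congr_ae hff).trans ?_
    exact condExp_condExp_of_le (hTF _) (hle _)
  · have h4 : ∫ x, |f x - f' x| ∂μ = ∫ x, ‖((μ[f | ℱ p]) - f) x‖ ∂μ := by
      refine integral_congr_ae ?_
      filter_upwards [hff] with x hx
      rw [hx, Pi.sub_apply, Real.norm_eq_abs, abs_sub_comm]
    have h5 : Integrable ((μ[f | ℱ p]) - f) μ := integrable_condExp.sub hfi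
    rw [h4, ← ENNReal.ofReal_le_ofReal_iff hε.le, ofReal_integral_norm_eq_lintegral_enorm h5,
      ← eLpNorm_one_eq_lintegral_enorm]
    exact hp.le

end Pool.Agent.Helper76.SS
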